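import Pool.Agent.H84.BlipA

/-! `BA_Lip(ω^ω)` implies `add(N) > ℵ₁`. -/

namespace Pool.Agent.Results.MP_84ba36_lc.AddNull

open Set Cardinal MeasureTheory Filter Pool.Agent.H84.Blip
open Pool.Agent.H84.MHull (W W_Iic W_card)
open scoped ENNReal

theorem result (h : BALip ℕ) : ℵ₁ < addN := by
  classical
  by_contra hle
  obtain ⟨𝓕, hc, h0, hne⟩ : addN ∈ {c | ∃ 𝓕 : Set (Set ℝ), #𝓕 = c ∧ (∀ N ∈ 𝓕, volume N = 0) ∧
      volume (⋃₀ 𝓕) ≠ 0} := csInf_mem ⟨_, range fun x : ℝ => ({x} : Set ℝ), rfl, by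
    rintro _ ⟨x, rfl⟩; simp, by rw [sUnion_range, iUnion_of_singleton]; simp⟩
  obtain ⟨e⟩ := (Cardinal.le_def _ _).1 (hc.le.trans ((not_lt.1 hle).trans W_card.ge))
  let M : W → Set ℝ := fun a => ⋃ N ∈ e ⁻¹' Iic a, N.1
  have hM : ∀ a, volume (M a) = 0 := fun a =>
    (measure_biUnion_null_iff ((W_Iic a).preimage e.injective)).2 fun N _ => h0 _ N.2
  obtain ⟨D, hD⟩ := null_code
  obtain ⟨η, hη, hηs⟩ := ENNReal.exists_pos_sum_of_countable' (ε := 1) one_ne_zero ℕ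
  let H : ℕ → ℕ := fun k => (k + 1) ^ (k + 1) * (k + 1)
  choose g0 hg0 hMg using fun a => hD (fun k => η k / (H k : ℝ≥0∞))
    (fun k => ENNReal.div_pos (hη k).ne' (ENNReal.natCast_ne_top _)) (M a) (hM a)
  obtain ⟨ι⟩ : Nonempty (W ↪ (ℕ → Bool)) := (Cardinal.le_def _ _).1 (by
    simpa using aleph_one_le_continuum)
  let t : W → ℕ → ℕ := fun a k => (ι a k).toNat
  have hti : Function.Injective t := fun a b hab => ι.injective (funext fun k => by
    have := congrFun hab k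
    revert this
    simp only [t]
    cases ι a k <;> cases ι b k <;> simp)
  let g : W → ℕ → ℕ := fun a k => Nat.pair (g0 a k) (t a k)
  have hgi : Function.Injective g := fun a b hab => hti (funext fun k =>
    (Nat.pair_eq_pair.1 (congrFun hab k)).2)
  obtain ⟨f, hf, hfi, hfm⟩ := h _ _ (mod_dense hti) (mod_dense hgi)
  have hsub : range t ⊆ Mod (range t) := fun y hy => ⟨y, hy, EventuallyEq.rfl⟩
  let I : Set W := {a | ∃ b, f (t b) =ᶠ[atTop] g a}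
  have hI : ¬ I.Countable := fun hc => unc_range hti
    (countable_of_injective_of_countable_image (hfi.mono hsub) ((mod_cnt (hc.image g)).mono (by
      rintro _ ⟨_, ⟨b, rfl⟩, rfl⟩
      obtain ⟨_, ⟨a, rfl⟩, ha⟩ := hfm (hsub ⟨b, rfl⟩)
      exact ⟨_, ⟨a, ⟨b, ha⟩, rfl⟩, ha⟩)))
  let E : (k : ℕ) → (Fin (k + 1) → Fin (k + 1)) → Set ℝ := fun k σ =>
    D (f (ext fun i => (σ i : ℕ)) k).unpair.1
  let C : ℕ → Set ℝ := fun k => ⋃ σ ∈ Finset.univ.filter fun σ =>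
    volume (E k σ) ≤ ((k + 1 : ℕ) : ℝ≥0∞) * (η k / (H k : ℝ≥0∞)), E k σ
  have hC : ∀ k, volume (C k) ≤ η k := fun k => by
    refine (measure_biUnion_finset_le _ _).trans ((Finset.sum_le_card_nsmul _ _ _
      fun σ hσ => (Finset.mem_filter.1 hσ).2).trans ?_)
    rw [nsmul_eq_mul, ← mul_assoc]
    refine le_trans (mul_le_mul_left ?_ _) (ENNReal.mul_div_le (a := (H k : ℝ≥0∞)))
    rw [← Nat.cast_mul, Nat.cast_le]
    refine Nat.mul_le_mul_right _ ((Finset.card_filter_le _ _).trans ?_)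
    simp
  refine hne (measure_mono_null ?_ (measure_setOfPred_frequently_eq_zero
    (p := fun k x => x ∈ C k) ((ENNReal.tsum_le_tsum hC).trans_lt
      (hηs.trans ENNReal.one_lt_top)).ne))
  rintro p ⟨N, hN, hp⟩
  obtain ⟨a, ⟨b, hb⟩, ha⟩ : ∃ a ∈ I, e ⟨N, hN⟩ ≤ a := by
    by_contra! hc
    exact hI ((W_Iic _).mono fun a ha => (hc a ha).le)
  refine ((hMg a p (mem_iUnion₂.2 ⟨⟨N, hN⟩, ha, hp⟩)).and_eventually
    (hb.and (eventually_ge_atTop 1))).mono ?_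
  rintro k ⟨hk, h1, h2⟩
  let σ : Fin (k + 1) → Fin (k + 1) := fun i => ⟨t b i, by
    have : t b i ≤ 1 := Bool.toNat_le _
    omega⟩
  have hE : E k σ = D (g0 a k) := by
    simp only [E, σ]
    rw [← hf.eq (t b) k, h1]
    simp [g]
  exact mem_iUnion₂.2 ⟨σ, Finset.mem_filter.2 ⟨Finset.mem_univ _, hE ▸ hg0 a k⟩, hE ▸ hk⟩

end Pool.Agent.Results.MP_84ba36_lc.AddNull
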