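import Pool.Agent.H84.BlipA

/-! Both `BA_Lip(ω^ω)` and `BA_Lip(2^ω)` imply `2^ℵ₀ = 2^ℵ₁`. -/

namespace Pool.Agent.Results.MP_84ba36_lc.Pow

open Cardinal Pool.Agent.H84.Blip

theorem result (h : BALip ℕ ∨ BALip Bool) :
    (2 : Cardinal.{0}) ^ (ℵ₀ : Cardinal.{0}) = 2 ^ (ℵ₁ : Cardinal.{0}) :=
  h.elim pow_eq pow_eq

end Pool.Agent.Results.MP_84ba36_lc.Pow
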